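import Pool.Agent.TMLim.Conclusion

/-!
# Transfer-matrix liminf set and absolutely continuous spectrum: a counterexample

The definitions used in the statement (`Ell2`, `delta1`, `IsJacobiOperator`, `transfer`, `opNorm`,
`Tbar`, `IsSpectralMeasure`, `SigmaAC`) are in `Pool/Agent/TMLim/Defs.lean`.
-/

set_option autoImplicit false

open MeasureTheory Set

namespace Pool.Agent.Results.MP_8faa00_mp.TbarNotAc

open Pool.Agent.TMLim

/-- There is a Jacobi matrix `J` with `a_n = 1` and bounded `b_n` such that at Lebesgue almost every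
energy `E` of `[-1, 1]` one has `liminf ‖T_E(n)‖ < ∞`, while `E` is not in the essential support
of the absolutely continuous part of the spectral measure of `J`. In particular the symmetric
difference of the two sets has positive Lebesgue measure. -/
theorem result :
    ∃ (a b : ℕ → ℝ), (∀ n, a n = 1) ∧ (∃ C : ℝ, ∀ n, |b n| ≤ C) ∧
      ∃ J : Ell2 →L[ℂ] Ell2, IsJacobiOperator a b J ∧
        ∃ μ : Measure ℝ, IsSpectralMeasure J delta1 μ ∧
          (∀ᵐ E ∂(volume.restrict (Icc (-1 : ℝ) 1)), E ∈ Tbar a b ∧ E ∉ SigmaAC μ) ∧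
          0 < volume (symmDiff (Tbar a b) (SigmaAC μ)) :=
  counterexample

end Pool.Agent.Results.MP_8faa00_mp.TbarNotAc
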